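import Pool.Agent.K6.H34.S3.Words
import Pool.Agent.H297.FT.Knotoid
import Pool.Agent.W639.RB.Words

/-!
# Directions and writhe of a drawn word, for any directions of the strands
-/

set_option autoImplicit false

namespace Pool.Agent.K6.H14.KW

open Finset Pool.Agent.H891R2.Jones Pool.Agent.W639.RB Pool.Agent.K6.H34.S3
  Pool.Agent.H832R3.TW Pool.Agent.H297.FT

/-- the directions above the word `w`, if `u` are the directions below it -/
def act : (Fin 3 → Bool) → Word → (Fin 3 → Bool)
  | u, [] => u
  | u, x :: w => act (u ∘ Equiv.swap x.2.castSucc x.2.succ) w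

/-- a sign -/
def sb (b : Bool) : ℤ := if b then 1 else -1

/-- the writhe of a word, if `u` are the directions of the strands below it -/
def wr : (Fin 3 → Bool) → Word → ℤ
  | _, [] => 0
  | u, x :: w => sb x.1 * (sb (u x.2.castSucc) * sb (u x.2.succ)) +
      wr (u ∘ Equiv.swap x.2.castSucc x.2.succ) w

theorem act_append (v w : Word) : ∀ u, act u (v ++ w) = act (act u v) w := by
  induction v with
  | nil => intro u; rfl
  | cons x v ih => intro u; exact ih _

theorem wr_append (v w : Word) : ∀ u, wr u (v ++ w) = wr u v + wr (act u v) w := by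
  induction v with
  | nil => intro u; simp [wr, act]
  | cons x v ih =>
    intro u
    simp only [List.cons_append, wr, act, ih]
    ring

theorem push_up (O : Outer 3) (b : Bool) (i : Fin 2) :
    (O.push b (i : ℕ)).up = O.up ∘ Equiv.swap i.castSucc i.succ := by
  fin_cases i
  · rfl
  · rfl

theorem push_owr (O : Outer 3) (b : Bool) (i : Fin 2) :
    owr (O.push b (i : ℕ)) = owr O + sb b * (sb (O.up i.castSucc) * sb (O.up i.succ)) := by
  have hi : (i : ℕ) + 1 < 3 := by omega
  rw [(push_writhe O b i hi).1]
  have h1 : pat O.up (i : ℕ) = sb (O.up i.castSucc) := by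
    unfold pat sb
    rw [dif_pos (by omega)]
    rfl
  have h2 : pat O.up ((i : ℕ) + 1) = sb (O.up i.succ) := by
    unfold pat sb
    rw [dif_pos hi]
    rfl
  rw [h1, h2]
  rfl

theorem draw_cons (O : Outer 3) (b : Bool) (i : Fin 2) (w : Word) :
    draw O (nat ((b, i) :: w)) = draw (O.push b (i : ℕ)) (nat w) := rfl

theorem draw_dir (w : Word) : ∀ O : Outer 3, (draw O (nat w)).up = act O.up w ∧
    owr (draw O (nat w)) = owr O + wr O.up w := by
  induction w with
  | nil => intro O; exact ⟨rfl, by simp [wr, draw, nat]⟩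
  | cons x w ih =>
    intro O
    obtain ⟨b, i⟩ := x
    rw [draw_cons]
    obtain ⟨h1, h2⟩ := ih (O.push b (i : ℕ))
    rw [h1, h2, push_up, push_owr]
    refine ⟨rfl, ?_⟩
    simp only [wr]
    ring

theorem even_iff (u : Fin 3 → Bool) (w : Word) : Even (wr u w) ↔ Even (expo (nat w)) := by
  induction w generalizing u with
  | nil => simp [wr, expo, nat]
  | cons x w ih =>
    obtain ⟨b, i⟩ := x
    have h1 : expo (nat ((b, i) :: w)) = (if b then (1:ℤ) else -1) + expo (nat w) := by
      simp [expo, nat]
    have hs : ∀ c : Bool, Odd (sb c) := by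
      intro c; cases c
      · exact ⟨-1, by simp [sb]⟩
      · exact ⟨0, by simp [sb]⟩
    have h2 : Odd (sb b * (sb (u i.castSucc) * sb (u i.succ))) := (hs _).mul ((hs _).mul (hs _))
    have h3 : Odd (if b then (1:ℤ) else -1) := hs b
    rw [h1, wr, Int.even_add, Int.even_add, ih]
    rw [← Int.not_even_iff_odd] at h2 h3
    simp only [h2, h3]

/-- equal braids: the same directions and the same writhe -/
theorem loc_dir {w w' : Word} (h : Relation.EqvGen Loc w w') :
    ∀ u, act u w = act u w' ∧ wr u w = wr u w' := by
  have key : ∀ x y : Word, (∀ u, act u x = act u y ∧ wr u x = wr u y) → ∀ (p q : Word) (u : Fin 3 → Bool),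
      act u (p ++ x ++ q) = act u (p ++ y ++ q) ∧ wr u (p ++ x ++ q) = wr u (p ++ y ++ q) := by
    intro x y hxy p q u
    obtain ⟨h1, h2⟩ := hxy (act u p)
    simp only [act_append, wr_append, h1, h2, and_self]
  have c1 : ∀ (b : Bool) (i : Fin 2) (u : Fin 3 → Bool),
      act u [(b, i), (!b, i)] = act u [] ∧ wr u [(b, i), (!b, i)] = wr u [] := by decide
  have c2 : ∀ (b : Bool) (u : Fin 3 → Bool),
      act u [(b, 0), (b, 1), (b, 0)] = act u [(b, 1), (b, 0), (b, 1)] ∧
      wr u [(b, 0), (b, 1), (b, 0)] = wr u [(b, 1), (b, 0), (b, 1)] := by decide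
  induction h with
  | rel a b h =>
    cases h with
    | cancel u v b i =>
      intro U
      have := key _ _ (c1 b i) u v U
      simpa using this
    | braid u v b =>
      intro U
      have := key _ _ (c2 b) u v U
      simpa using this
  | refl a => intro u; exact ⟨rfl, rfl⟩
  | symm a b _ ih => intro u; exact ⟨(ih u).1.symm, (ih u).2.symm⟩
  | trans a b c _ _ ih ih' => intro u; exact ⟨(ih u).1.trans (ih' u).1, (ih u).2.trans (ih' u).2⟩

theorem braid_dir {w w' : Word} (h : braid w = braid w') (u : Fin 3 → Bool) :
    act u w = act u w' ∧ wr u w = wr u w' := loc_dir (loc_of_braid h) u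

/-! ### Consistent directions -/

theorem KGood_push_iff {m : ℕ} (O : Outer m) (v : Fin m → Bool) (pos : Bool) (i : ℕ) :
    KGood (O.push pos i) v ↔ KGood O v := by
  refine ⟨?_, KGood_push O v pos i⟩
  by_cases h : i + 1 < m
  · rw [push_eq O pos i h]
    rintro ⟨tail, head, hth, h1, h2⟩
    have e1 := Sst_pushE O v pos i h (fun x => Sst O v x) (fun _ => rfl)
    have e2 := Sst_rev_pushE O (fun j => !(v j)) pos i h (fun x => Sst O.rev (fun j => !(v j)) x)
      (fun _ => rfl)
    have hh : ∃ head' : O.P, head = Sum.inl head' := by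
      rcases head with x | x
      · exact ⟨x, rfl⟩
      · exfalso
        have := h1 (Sum.inr x)
        rw [if_pos rfl] at this
        have h3 := e1 (Sum.inr x)
        rw [this] at h3
        simp at h3
    have ht : ∃ tail' : O.P, tail = Sum.inl tail' := by
      rcases tail with x | x
      · exact ⟨x, rfl⟩
      · exfalso
        have := h2 (Sum.inr x)
        rw [if_pos rfl] at this
        have h3 := e2 (Sum.inr x)
        rw [this] at h3
        simp at h3
    obtain ⟨head', rfl⟩ := hh
    obtain ⟨tail', rfl⟩ := ht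
    refine ⟨tail', head', fun he => hth (congrArg Sum.inl he), ?_, ?_⟩
    · intro x
      have h3 := h1 (Sum.inl x)
      have h4 := e1 (Sum.inl x)
      rw [Sum.elim_inl] at h4
      refine (h4.symm.trans h3).trans ?_
      by_cases hx : x = head'
      · subst hx
        exact (if_pos rfl).trans (if_pos rfl).symm
      · exact (if_neg (fun he => hx (Sum.inl_injective he))).trans (if_neg hx).symm
    · intro x
      have h3 := h2 (Sum.inl x)
      have h4 := e2 (Sum.inl x)
      rw [Sum.elim_inl] at h4
      refine (h4.symm.trans h3).trans ?_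
      by_cases hx : x = tail'
      · subst hx
        exact (if_pos rfl).trans (if_pos rfl).symm
      · exact (if_neg (fun he => hx (Sum.inl_injective he))).trans (if_neg hx).symm
  · unfold Outer.push
    rw [dif_neg h]
    exact id

theorem KGood_draw {m : ℕ} (v : Fin m → Bool) (w : List (Bool × ℕ)) : ∀ (O : Outer m),
    KGood (draw O w) v ↔ KGood O v := by
  induction w with
  | nil => intro O; exact Iff.rfl
  | cons x w ih =>
    intro O
    have h1 : draw O (x :: w) = draw (O.push x.1 x.2) w := rfl
    rw [h1, ih, KGood_push_iff]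

theorem isKnotoid_iff (O : Outer 3) (w : Word) :
    IsKnotoid (draw O (nat w)).close ↔ KGood O (act O.up w) := by
  rw [knotoid_iff, (draw_dir w O).1, KGood_draw]

end Pool.Agent.K6.H14.KW
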